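import Pool.Agent.R537.HD.Mem

/-!
# The Hausdorff distance under translations is `∃∀∃ℝ`-complete

Sketch of the hardness proof.

*Compact normal form.*  Let `∃ x ∀ y ∃ z, S(x, y, z)` be a sentence, `S` a system of constraints
`v = 1`, `u + v = w`, `u v = w`.  The maximum over a cube of a continuous function that satisfies a
polynomial relation satisfies a polynomial relation of bounded degree and height (proved with
critical points of a perturbation and resultants of a Gröbner-like system; only elementary
determinant bounds are used), so iterated block maxima satisfy Łojasiewicz inequalities with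
exponents and gaps that are doubly exponential.  Homogenising the three blocks one obtains an
equivalent sentence `∃ x ∈ [-1,1]^n ∀ y ∈ [-1,1]^m ∃ z ∈ [-1,1]^l, Φ ≤ 0` whose matrix is a closed
condition, large powers being written by repeated squaring.

*Geometry.*  In coordinates `(x, y, z, h)` let
`A = {(0, y, 0, 0)} ∪ {z = 0, h ∈ {2R - 2, 100R, -300R}}` and let `B` be the union of
`{(x, y, z, h) : C(x, y, z), |z|² + h² = R², h ≥ 0}`, `{z = 0, h = 2R}`,
`{|z|² + (h - 100R)² = R²}` and `{|z|² + (h + 300R)² = R²}`.  The last two sets fix the
`(z, h)`-part of a translation (indeed of an isometry) exactly, and then the flat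
`{(v, y, 0, 0)}` is within `R` of `B` if and only if `∀ y ∃ z, C(v, y, z)`.
-/

namespace Pool.Agent.Results.MP_1b4d2d_lc.TranslatedHausdorffComplete

open Pool.Agent.NPC Pool.Agent.NPC.ER Pool.Agent.NPC.R537HD

/-- The translated Hausdorff distance problem for semialgebraic sets is `∃∀∃ℝ`-complete under
polynomial-time many-one reductions. -/
theorem result : EAEComplete (lang TransHausdorff) := trans_complete

end Pool.Agent.Results.MP_1b4d2d_lc.TranslatedHausdorffComplete
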